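import Pool.Agent.Helper80.FX2.Sweeps
import Pool.Agent.Helper31.FX.Label

/-! Project FX2: the label function of a monotone map without fixed point. The letters are the
finite chains of `E` (the empty one included), ordered by reverse inclusion; the letter `ρ` acts by
`x ↦ m ∨ f x`, `m` the least element of `ρ` which is a value above `x`, or `x ↦ s ∨ f x`. -/

set_option autoImplicit false

universe u

namespace Pool.Agent.Helper80.FX2


/-- letters: finite sets, reverse inclusion -/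
abbrev Lt (P : Type*) := (Finset P)ᵒᵈ

/-- admissible letters -/
def LZ {P : Type*} [PartialOrder P] (E : Set P) : Set (Lt P) :=
  {ρ | ((OrderDual.ofDual ρ : Finset P) : Set P) ⊆ E ∧
    IsChain (· ≤ ·) ((OrderDual.ofDual ρ : Finset P) : Set P)}

theorem LZ_top {P : Type*} [PartialOrder P] (E : Set P) :
    (OrderDual.toDual (∅ : Finset P) : Lt P) ∈ LZ E := by
  refine ⟨?_, ?_⟩
  · simp
  · show IsChain (· ≤ ·) ((∅ : Finset P) : Set P)
    rw [Finset.coe_empty]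
    exact IsChain.empty

/-- the least element of a set, `s` if there is none -/
noncomputable def lo {P : Type*} [PartialOrder P] (s : P) (ρ : Finset P) : P :=
  open Classical in if h : ∃ m ∈ ρ, ∀ x ∈ ρ, m ≤ x then h.choose else s

theorem lo_of_chain {P : Type*} [PartialOrder P] (s : P) (ρ : Finset P)
    (hc : IsChain (· ≤ ·) (ρ : Set P)) (hne : ρ.Nonempty) :
    lo s ρ ∈ ρ ∧ ∀ x ∈ ρ, lo s ρ ≤ x := by
  have h : ∃ m ∈ ρ, ∀ x ∈ ρ, m ≤ x := by
    obtain ⟨m, hm, hmm⟩ := ρ.exists_minimal hne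
    refine ⟨m, hm, fun x hx => ?_⟩
    rcases hc.total hm hx with h' | h'
    · exact h'
    · exact hmm hx h'
  unfold lo
  rw [dif_pos h]
  exact h.choose_spec

theorem lo_empty {P : Type*} [PartialOrder P] (s : P) : lo s (∅ : Finset P) = s := by
  unfold lo
  rw [dif_neg]
  rintro ⟨m, hm, -⟩
  exact absurd hm (Finset.notMem_empty m)

theorem lo_le {P : Type*} [PartialOrder P] (s : P) (ρ : Finset P)
    (hc : IsChain (· ≤ ·) (ρ : Set P)) (hs : ∀ x ∈ ρ, x ≤ s) : lo s ρ ≤ s := by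
  rcases ρ.eq_empty_or_nonempty with rfl | h
  · exact (lo_empty s).le
  · exact hs _ (lo_of_chain s ρ hc h).1

theorem lo_anti {P : Type*} [PartialOrder P] (s : P) (ρ ρ' : Finset P)
    (hc : IsChain (· ≤ ·) (ρ : Set P)) (hs : ∀ x ∈ ρ, x ≤ s) (h : ρ' ⊆ ρ) :
    lo s ρ ≤ lo s ρ' := by
  rcases ρ'.eq_empty_or_nonempty with rfl | h'
  · rw [lo_empty]
    exact lo_le s ρ hc hs
  · have hc' : IsChain (· ≤ ·) (ρ' : Set P) := hc.mono (Finset.coe_subset.2 h)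
    exact (lo_of_chain s ρ hc (h'.mono h)).2 _ (h (lo_of_chain s ρ' hc' h').1)

theorem exists_label (P : Type u) [PartialOrder P]
    (hfin : ∃ n : ℕ, ∀ c : Finset P, IsChain (· ≤ ·) (c : Set P) → c.card ≤ n) (s : P)
    (hi : ∀ x : P, (∃ z : P, IsLUB ({s, x} : Set P) z) ∨ (∃ z : P, IsGLB ({s, x} : Set P) z))
    (E : Set P) (hE : ∀ d ∈ E, d < s)
    (hgr : ∀ m : P, m < s → ∃ e, IsGreatest {d | d ∈ E ∧ d ≤ m} e)
    (hj : ∀ x y m e : P, x < y → (¬ ∃ z : P, IsGLB ({s, x} : Set P) z) →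
      IsGLB ({s, y} : Set P) m → m < s → IsGreatest {d | d ∈ E ∧ d ≤ m} e →
      ∃ z : P, IsLUB ({e, x} : Set P) z)
    (f : P → P) (hf : Monotone f) (hno : ¬ ∃ x : P, f x = x) :
    ∃ (r : ℕ) (lam : (Fin r → Lt P) → P),
      (∀ δ, Helper31.FX.Rel δ δ → (∀ j, δ j ∈ LZ E) → lam δ ∈ E) ∧
      (∀ δ δ', Helper31.FX.Rel δ δ' → Helper31.FX.Rel δ δ → Helper31.FX.Rel δ' δ' → (∀ j, δ j ∈ LZ E) →
        (∀ j, δ' j ∈ LZ E) → lam δ ≤ lam δ' ∨ lam δ' ≤ lam δ) ∧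
      ∀ δ, Helper31.FX.Rel δ δ → (∀ j, δ j ∈ LZ E) → ∀ x, (∀ j, x ∈ (OrderDual.ofDual (δ j) : Finset P)) →
        lam δ ≠ x := by
  classical
  obtain ⟨n, hn⟩ := hfin
  have nle : ∀ x, ¬ x ≤ f x := fun x hx => hno (Helper31.FX.fix_of_le n hn f hf x hx)
  have nge : ∀ x, ¬ f x ≤ x := fun x hx => hno (Helper31.FX.fix_of_ge n hn f hf x hx)
  -- the set A
  let A : Set P := {x | ¬ ∃ z : P, IsGLB ({s, f x} : Set P) z}
  have hW : ∀ x, x ∉ A → ∃ z : P, IsGLB ({s, f x} : Set P) z := by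
    intro x hx
    simpa [A] using hx
  have hA : ∀ x ∈ A, ∃ z : P, IsLUB ({s, f x} : Set P) z := by
    intro x hx
    rcases hi (f x) with h | h
    · exact h
    · exact absurd h hx
  -- meets, with junk value
  let be : P → P := fun x => if h : ∃ z : P, IsGLB ({s, f x} : Set P) z then h.choose else s
  have hbe : ∀ x, x ∉ A → IsGLB ({s, f x} : Set P) (be x) := by
    intro x hx
    have h := hW x hx
    simp only [be, dif_pos h]
    exact h.choose_spec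
  have hbes : ∀ x, x ∉ A → be x ≤ s := fun x hx => (hbe x hx).1 (by simp)
  have hbef : ∀ x, x ∉ A → be x ≤ f x := fun x hx => (hbe x hx).1 (by simp)
  have hbem : ∀ x y, x ∉ A → y ∉ A → x ≤ y → be x ≤ be y := by
    intro x y hx hy hxy
    refine (hbe y hy).2 ?_
    rintro z (rfl | rfl)
    · exact hbes x hx
    · exact (hbef x hx).trans (hf hxy)
  -- greatest elements of `E`
  let pi : P → P := fun m => if h : ∃ e, IsGreatest {d | d ∈ E ∧ d ≤ m} e then h.choose else m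
  have hpi : ∀ m, m < s → IsGreatest {d | d ∈ E ∧ d ≤ m} (pi m) := by
    intro m hm
    have h := hgr m hm
    simp only [pi, dif_pos h]
    exact h.choose_spec
  -- values above `x`
  let Val : P → P → Prop := fun x e => ∃ w, w ∉ A ∧ x < w ∧ be w < s ∧ pi (be w) = e
  have hVal : ∀ x x', x ≤ x' → ∀ e, Val x' e → Val x e := by
    rintro x x' h e ⟨w, h1, h2, h3, h4⟩
    exact ⟨w, h1, lt_of_le_of_lt h h2, h3, h4⟩
  -- the element added at `x` for the letter `ρ`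
  let ad : Lt P → P → P := fun ρ x => lo s ((OrderDual.ofDual ρ : Finset P).filter (Val x))
  let K : Lt P → P → P := fun ρ x =>
    if h : ∃ z : P, IsLUB ({ad ρ x, f x} : Set P) z then h.choose else s
  have hle : ∀ ρ ∈ LZ E, ∀ x ∈ (OrderDual.ofDual ρ : Finset P), x ≤ s := fun ρ hρ x hx =>
    (hE x (hρ.1 (Finset.mem_coe.2 hx))).le
  have hch : ∀ ρ ∈ LZ E, ∀ x,
      IsChain (· ≤ ·) (((OrderDual.ofDual ρ : Finset P).filter (Val x) : Finset P) : Set P) :=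
    fun ρ hρ x => hρ.2.mono (Finset.coe_subset.2 (Finset.filter_subset _ _))
  have hlef : ∀ ρ ∈ LZ E, ∀ x, ∀ y ∈ (OrderDual.ofDual ρ : Finset P).filter (Val x), y ≤ s :=
    fun ρ hρ x y hy => hle ρ hρ y (Finset.mem_of_mem_filter y hy)
  have hads : ∀ ρ ∈ LZ E, ∀ x, ad ρ x ≤ s := fun ρ hρ x => lo_le s _ (hch ρ hρ x) (hlef ρ hρ x)
  have hlub : ∀ ρ ∈ LZ E, ∀ x ∈ A, IsLUB ({ad ρ x, f x} : Set P) (K ρ x) := by
    intro ρ hρ x hx
    have h : ∃ z : P, IsLUB ({ad ρ x, f x} : Set P) z := by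
      rcases ((OrderDual.ofDual ρ : Finset P).filter (Val x)).eq_empty_or_nonempty with he | he
      · have e : ad ρ x = s := by
          simp only [ad, he]
          exact lo_empty s
        rw [e]
        exact hA x hx
      · have h1 := (lo_of_chain s _ (hch ρ hρ x) he).1
        rw [Finset.mem_filter] at h1
        obtain ⟨-, w, hw, hxw, hws, hpw⟩ := h1
        refine hj (f x) (f w) (be w) (ad ρ x) ?_ hx (hbe w hw) hws ?_
        · refine lt_of_le_of_ne (hf hxw.le) ?_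
          intro e
          apply hx
          rw [e]
          exact hW w hw
        · have := hpi _ hws
          rw [hpw] at this
          exact this
    simp only [K, dif_pos h]
    exact h.choose_spec
  have hKa : ∀ ρ ∈ LZ E, ∀ x ∈ A, ad ρ x ≤ K ρ x := fun ρ hρ x hx => (hlub ρ hρ x hx).1 (by simp)
  have hKf : ∀ ρ ∈ LZ E, ∀ x ∈ A, f x ≤ K ρ x := fun ρ hρ x hx => (hlub ρ hρ x hx).1 (by simp)
  have hKl : ∀ ρ ∈ LZ E, ∀ x ∈ A, ∀ y, ad ρ x ≤ y → f x ≤ y → K ρ x ≤ y := by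
    intro ρ hρ x hx y h1 h2
    refine (hlub ρ hρ x hx).2 ?_
    rintro z (rfl | rfl)
    · exact h1
    · exact h2
  have hKx : ∀ ρ ∈ LZ E, ∀ x ∈ A, ¬ K ρ x ≤ x := fun ρ hρ x hx h =>
    nge x ((hKf ρ hρ x hx).trans h)
  have hst : ∀ ρ ∈ LZ E, ∀ ρ' ∈ LZ E, ρ ≤ ρ' →
      lo s (OrderDual.ofDual ρ) ≤ lo s (OrderDual.ofDual ρ') := fun ρ hρ ρ' _ h =>
    lo_anti s _ _ hρ.2 (hle ρ hρ) h
  have hd : ∀ ρ ∈ LZ E, ∀ x ∈ A, lo s (OrderDual.ofDual ρ) ≤ K ρ x := fun ρ hρ x hx =>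
    (lo_anti s _ _ hρ.2 (hle ρ hρ) (Finset.filter_subset _ _)).trans (hKa ρ hρ x hx)
  have hK : ∀ ρ ∈ LZ E, ∀ ρ' ∈ LZ E, ∀ x ∈ A, ∀ x' ∈ A, ρ ≤ ρ' → x ≤ x' →
      K ρ x ≤ K ρ' x' := by
    intro ρ hρ ρ' hρ' x hx x' hx' h hxx
    refine hKl ρ hρ x hx _ ((lo_anti s _ _ (hch ρ hρ x) (hlef ρ hρ x) ?_).trans
      (hKa ρ' hρ' x' hx')) ((hf hxx).trans (hKf ρ' hρ' x' hx'))
    intro y hy
    rw [Finset.mem_filter] at hy ⊢
    exact ⟨h hy.1, hVal x x' hxx y hy.2⟩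
  have htop : ∀ ρ ∈ LZ E, ρ ≤ (OrderDual.toDual (∅ : Finset P) : Lt P) := by
    intro ρ _
    show (∅ : Finset P) ⊆ OrderDual.ofDual ρ
    exact Finset.empty_subset _
  obtain ⟨v, hv1, hv2⟩ := sweeps n hn (OrderDual.toDual (∅ : Finset P) : Lt P) A (LZ E) (LZ_top E)
    htop (fun ρ => lo s (OrderDual.ofDual ρ)) K hst hK hd hKx
  -- the exit is not above ...
  have hlt : ∀ δ, Helper31.FX.Rel δ δ → (∀ j, δ j ∈ LZ E) → be (v δ) < s := by
    intro δ hδ hδZ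
    obtain ⟨hvA, j, hj'⟩ := hv1 δ hδ hδZ
    refine lt_of_le_of_ne (hbes _ hvA) ?_
    intro e
    have hsf : s ≤ f (v δ) := e ▸ hbef _ hvA
    apply nle (v δ)
    rcases hj' with e1 | ⟨z, hz, hzv, e1⟩
    · have h1 : v δ ≤ s := by
        rw [e1]
        exact lo_le s _ (hδZ j).2 (hle _ (hδZ j))
      exact h1.trans hsf
    · have h1 : K (δ j) z ≤ f (v δ) :=
        hKl (δ j) (hδZ j) z hz _ ((hads _ (hδZ j) z).trans hsf) (hf hzv)
      rw [← e1] at h1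
      exact h1
  let lam : (Fin n → Lt P) → P := fun δ => pi (be (v δ))
  have hl1 : ∀ δ, Helper31.FX.Rel δ δ → (∀ j, δ j ∈ LZ E) → lam δ ∈ E := by
    intro δ hδ hδZ
    exact (hpi _ (hlt δ hδ hδZ)).1.1
  have hl2 : ∀ δ δ', Helper31.FX.Rel δ δ' → Helper31.FX.Rel δ δ → Helper31.FX.Rel δ' δ' → (∀ j, δ j ∈ LZ E) →
      (∀ j, δ' j ∈ LZ E) → lam δ ≤ lam δ' ∨ lam δ' ≤ lam δ := by
    have aux : ∀ δ δ', Helper31.FX.Rel δ δ → Helper31.FX.Rel δ' δ' → (∀ j, δ j ∈ LZ E) → (∀ j, δ' j ∈ LZ E) →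
        v δ ≤ v δ' → lam δ ≤ lam δ' := by
      intro δ δ' h1 h2 hz1 hz2 hle
      refine (hpi _ (hlt δ' h2 hz2)).2 ⟨hl1 δ h1 hz1, ?_⟩
      exact (hpi _ (hlt δ h1 hz1)).1.2.trans
        (hbem _ _ (hv1 δ h1 hz1).1 (hv1 δ' h2 hz2).1 hle)
    intro δ δ' hr h1 h2 hz1 hz2
    rcases hv2 δ δ' hr h1 h2 hz1 hz2 with h | h
    · exact Or.inl (aux δ δ' h1 h2 hz1 hz2 h)
    · exact Or.inr (aux δ' δ h2 h1 hz2 hz1 h)
  have hl3 : ∀ δ, Helper31.FX.Rel δ δ → (∀ j, δ j ∈ LZ E) →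
      ∀ x, (∀ j, x ∈ (OrderDual.ofDual (δ j) : Finset P)) → lam δ ≠ x := by
    intro δ hδ hδZ x hx hcon
    obtain ⟨hvA, j, hj'⟩ := hv1 δ hδ hδZ
    have hbl := hlt δ hδ hδZ
    have hlb : lam δ ≤ f (v δ) := (hpi _ hbl).1.2.trans (hbef _ hvA)
    have hin : lam δ ∈ (OrderDual.ofDual (δ j) : Finset P) := hcon ▸ hx j
    apply nle (v δ)
    rcases hj' with e1 | ⟨z, hz, hzv, e1⟩
    · have h1 : v δ ≤ lam δ := by
        rw [e1]
        exact (lo_of_chain s _ (hδZ j).2 ⟨_, hin⟩).2 _ hin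
      exact h1.trans hlb
    · have hzlt : z < v δ := by
        refine lt_of_le_of_ne hzv ?_
        intro e'
        exact hvA (e' ▸ hz)
      have hmem : lam δ ∈ (OrderDual.ofDual (δ j) : Finset P).filter (Val z) := by
        rw [Finset.mem_filter]
        exact ⟨hin, v δ, hvA, hzlt, hbl, rfl⟩
      have h1 : ad (δ j) z ≤ lam δ := (lo_of_chain s _ (hch _ (hδZ j) z) ⟨_, hmem⟩).2 _ hmem
      have h2 : K (δ j) z ≤ f (v δ) := hKl (δ j) (hδZ j) z hz _ (h1.trans hlb) (hf hzv)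
      rw [← e1] at h2
      exact h2
  exact ⟨n, lam, hl1, hl2, hl3⟩

end Pool.Agent.Helper80.FX2
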