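import Pool.Agent.Helper80.FX2.NoLabel
import Pool.Agent.Helper31.FX.Bounded

/-! Project FX2: no labelling on a set without bounded ray. Adapted from helper31's
`Bounded.lean`. -/

set_option autoImplicit false

namespace Pool.Agent.Helper80.FX2


open Helper31.FX (HasBoundedRay)

/-- The tuple `δ` with the entries from `i` on replaced by the empty letter. -/
def cutTop {P : Type*} {r : ℕ} (δ : Fin r → Lt P) (i : ℕ) : Fin r → Lt P :=
  fun j => if (j : ℕ) < i then δ j else OrderDual.toDual ∅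

theorem le_top' {P : Type*} (ρ : Lt P) : ρ ≤ (OrderDual.toDual (∅ : Finset P) : Lt P) := by
  show (∅ : Finset P) ⊆ OrderDual.ofDual ρ
  exact Finset.empty_subset _

theorem no_labelling_bray {P : Type*} [PartialOrder P] (r : ℕ) (s : P) (E : Set P)
    (hE : ∀ d ∈ E, d < s) (lam : (Fin r → Lt P) → P)
    (h1 : ∀ δ, Helper31.FX.Rel δ δ → (∀ j, δ j ∈ LZ E) → lam δ ∈ E)
    (h2 : ∀ δ δ', Helper31.FX.Rel δ δ' → Helper31.FX.Rel δ δ → Helper31.FX.Rel δ' δ' → (∀ j, δ j ∈ LZ E) →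
      (∀ j, δ' j ∈ LZ E) → lam δ ≤ lam δ' ∨ lam δ' ≤ lam δ)
    (h3 : ∀ δ, Helper31.FX.Rel δ δ → (∀ j, δ j ∈ LZ E) →
      ∀ x, (∀ j, x ∈ (OrderDual.ofDual (δ j) : Finset P)) → lam δ ≠ x)
    (hray : ¬ HasBoundedRay E) : False := by
  classical
  let B : Set P := {d | ∃ δ, Helper31.FX.Rel δ δ ∧ (∀ j, δ j ∈ LZ E) ∧ lam δ = d}
  have hBE : ∀ b ∈ B, b ∈ E := by
    rintro b ⟨δ, hδ, hδZ, rfl⟩
    exact h1 δ hδ hδZ
  have hsub : ∀ x, x ∈ LZ B → x ∈ LZ E := fun x hx => ⟨fun y hy => hBE y (hx.1 hy), hx.2⟩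
  -- properties of the cut tuples
  have hcv : ∀ δ : Fin r → Lt P, (∀ j, δ j ∈ LZ E) → ∀ i j, cutTop δ i j ∈ LZ E := by
    intro δ hδ i j
    unfold cutTop
    split_ifs
    · exact hδ j
    · exact LZ_top E
  have hcr : ∀ δ : Fin r → Lt P, Helper31.FX.Rel δ δ → ∀ i, Helper31.FX.Rel (cutTop δ (i + 1)) (cutTop δ i) := by
    intro δ hδ i
    constructor
    · intro j
      unfold cutTop
      by_cases h : (j : ℕ) < i
      · rw [if_pos h, if_pos (by omega)]
      · rw [if_neg h]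
        exact le_top' _
    · intro j k hjk
      have hjk' : (j : ℕ) < (k : ℕ) := hjk
      unfold cutTop
      by_cases h : (k : ℕ) < i + 1
      · rw [if_pos h, if_pos (by omega)]
        exact hδ.2 j k hjk
      · rw [if_neg h]
        exact le_top' _
  have hcc : ∀ δ : Fin r → Lt P, Helper31.FX.Rel δ δ → ∀ i, Helper31.FX.Rel (cutTop δ i) (cutTop δ i) := by
    intro δ hδ i
    refine ⟨fun j => le_rfl, ?_⟩
    intro j k hjk
    have hjk' : (j : ℕ) < (k : ℕ) := hjk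
    unfold cutTop
    by_cases h : (k : ℕ) < i
    · rw [if_pos h, if_pos (by omega)]
      exact hδ.2 j k hjk
    · rw [if_neg h]
      exact le_top' _
  refine no_labelling_ray r s B (fun b hb => hE b (hBE b hb)) lam ?_ ?_ ?_ ?_
  · intro δ hδ hδZ
    exact ⟨δ, hδ, fun j => hsub _ (hδZ j), rfl⟩
  · intro δ δ' hr h h' hz hz'
    exact h2 δ δ' hr h h' (fun j => hsub _ (hz j)) (fun j => hsub _ (hz' j))
  · intro δ hδ hδZ x hx
    exact h3 δ hδ (fun j => hsub _ (hδZ j)) x hx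
  · rintro ⟨v, hv, hvB, hvc⟩
    apply hray
    refine ⟨v, hv, fun k => hBE _ (hvB k), hvc, lam (fun _ => OrderDual.toDual ∅), r, ?_⟩
    intro i
    obtain ⟨δ, hδ, hδZ, hl⟩ := hvB i
    refine ⟨fun j => lam (cutTop δ j), ?_, ?_, ?_, ?_⟩
    · congr 1
    · show lam (cutTop δ r) = v i
      rw [← hl]
      congr 1
      funext j
      unfold cutTop
      rw [if_pos j.2]
    · intro j _
      exact h1 _ (hcc δ hδ j) (hcv δ hδZ j)
    · intro j _
      exact (h2 _ _ (hcr δ hδ j) (hcc δ hδ (j + 1)) (hcc δ hδ j)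
        (hcv δ hδZ (j + 1)) (hcv δ hδZ j)).symm

end Pool.Agent.Helper80.FX2
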