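import Pool.Agent.Helper80.FX2.Label
import Pool.Agent.Helper31.FX.Faces
import Pool.Agent.Helper31.FX.Subdiv

/-! Project FX2: barycentric subdivision followed by the edgewise subdivision. -/

set_option autoImplicit false

namespace Pool.Agent.Helper80.FX2


open Helper31.FX (FC LC dF J)

theorem add_self_mod {M : Type*} [AddCommGroup M] [Module (ZMod 2) M] (c : M) : c + c = 0 := by
  have h : (1 + 1 : ZMod 2) = 0 := by decide
  calc c + c = (1 : ZMod 2) • c + (1 : ZMod 2) • c := by rw [one_smul]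
    _ = ((1 : ZMod 2) + 1) • c := by rw [add_smul]
    _ = 0 := by rw [h, zero_smul]

/-- auxiliary recursion, on the number of elements -/
noncomputable def Sn {M P : Type*} [AddCommGroup M] [Module (ZMod 2) M] [DecidableEq P]
    (e0 : M) (hh : Finset P → M →ₗ[ZMod 2] M) : ℕ → Finset P → M
  | 0, _ => e0
  | n + 1, σ => hh σ (∑ x ∈ σ, Sn e0 hh n (σ.erase x))

theorem swap {M P : Type*} [AddCommGroup M] [Module (ZMod 2) M] [DecidableEq P] (σ : Finset P)
    (f : P → P → M) (hf : ∀ x y, f x y = f y x) : ∑ x ∈ σ, ∑ y ∈ σ.erase x, f x y = 0 := by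
  rw [Finset.sum_sigma']
  refine Finset.sum_involution (fun p _ => ⟨p.2, p.1⟩) ?_ ?_ ?_ ?_
  · rintro ⟨x, y⟩ _
    show f x y + f y x = 0
    rw [hf y x]
    exact add_self_mod _
  · rintro ⟨x, y⟩ h _ h2
    rw [Finset.mem_sigma, Finset.mem_erase] at h
    have h3 : y = x := congrArg Sigma.fst h2
    exact h.2.1 h3
  · rintro ⟨x, y⟩ h
    rw [Finset.mem_sigma, Finset.mem_erase] at h ⊢
    exact ⟨h.2.2, fun h4 => h.2.1 h4.symm, h.1⟩
  · rintro ⟨x, y⟩ _
    rfl

/-- Recursive construction with given contractions, in a general chain complex. -/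
theorem exists_rec {M P : Type*} [AddCommGroup M] [Module (ZMod 2) M] [DecidableEq P]
    (DD : M →ₗ[ZMod 2] M) (e0 : M) (he0 : DD e0 = 0) (hh : Finset P → M →ₗ[ZMod 2] M)
    (hc : ∀ σ, σ ≠ ∅ → ∀ c, DD (hh σ c) + hh σ (DD c) = c) :
    ∃ S : Finset P → M, S ∅ = e0 ∧
      (∀ σ, σ ≠ ∅ → S σ = hh σ (∑ x ∈ σ, S (σ.erase x))) ∧
      ∀ σ, DD (S σ) = ∑ x ∈ σ, S (σ.erase x) := by
  set S : Finset P → M := fun σ => Sn e0 hh σ.card σ with hS
  have h0 : S ∅ = e0 := rfl
  have h1 : ∀ σ, σ ≠ ∅ → S σ = hh σ (∑ x ∈ σ, S (σ.erase x)) := by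
    intro σ hσ
    obtain ⟨n, hn⟩ : ∃ n, σ.card = n + 1 :=
      Nat.exists_eq_succ_of_ne_zero (fun h => hσ (Finset.card_eq_zero.1 h))
    have h2 : S σ = hh σ (∑ x ∈ σ, Sn e0 hh n (σ.erase x)) := by
      show Sn e0 hh σ.card σ = _
      rw [hn]
      rfl
    rw [h2]
    congr 1
    refine Finset.sum_congr rfl fun x hx => ?_
    show Sn e0 hh n (σ.erase x) = Sn e0 hh (σ.erase x).card (σ.erase x)
    rw [Finset.card_erase_of_mem hx, hn, Nat.add_sub_cancel]
  refine ⟨S, h0, h1, ?_⟩
  have key : ∀ n : ℕ, ∀ σ : Finset P, σ.card = n → DD (S σ) = ∑ x ∈ σ, S (σ.erase x) := by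
    intro n
    induction n with
    | zero =>
      intro σ hσ
      rw [Finset.card_eq_zero] at hσ
      rw [hσ, h0, he0, Finset.sum_empty]
    | succ n ih =>
      intro σ hσ
      have hne : σ ≠ ∅ := by
        intro h
        rw [h, Finset.card_empty] at hσ
        exact absurd hσ (Nat.succ_ne_zero n).symm
      have hDE : DD (∑ x ∈ σ, S (σ.erase x)) = 0 := by
        rw [map_sum]
        have h3 : ∀ x ∈ σ, DD (S (σ.erase x)) = ∑ y ∈ σ.erase x, S ((σ.erase x).erase y) := by
          intro x hx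
          refine ih (σ.erase x) ?_
          rw [Finset.card_erase_of_mem hx, hσ, Nat.add_sub_cancel]
        rw [Finset.sum_congr rfl h3]
        refine swap σ (fun x y => S ((σ.erase x).erase y)) fun x y => ?_
        show S ((σ.erase x).erase y) = S ((σ.erase y).erase x)
        rw [Finset.erase_right_comm]
      have h4 := hc σ hne (∑ x ∈ σ, S (σ.erase x))
      rw [hDE, map_zero, add_zero] at h4
      rw [h1 σ hne]
      exact h4
  intro σ
  exact key σ.card σ rfl

/-- The barycentric subdivision, as a chain of flags; `s` is subdivided as the empty letter. -/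
theorem exists_bary (P : Type*) [DecidableEq P] (s : P) :
    ∃ G : Finset P → FC (Lt P), G ∅ = Finsupp.single ∅ 1 ∧
      (∀ σ, dF (G σ) = ∑ x ∈ σ, G (σ.erase x)) ∧
      ∀ σ F, G σ F ≠ 0 → IsChain (· ≤ ·) (F : Set (Lt P)) ∧
        (∀ ρ ∈ F, (OrderDual.ofDual ρ : Finset P) ⊆ σ.erase s) ∧
        (s ∉ σ → ∀ ρ ∈ F, (OrderDual.ofDual ρ : Finset P).Nonempty) := by
  classical
  let ap : Finset P → Lt P := fun σ => if s ∈ σ then OrderDual.toDual ∅ else OrderDual.toDual σ
  have hc : ∀ σ : Finset P, σ ≠ ∅ → ∀ c : FC (Lt P), dF (J (ap σ) c) + J (ap σ) (dF c) = c := by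
    intro σ _ c
    rw [Helper31.FX.dF_J, add_assoc, add_self_mod, add_zero]
  have he0 : dF (Finsupp.single (∅ : Finset (Lt P)) (1 : ZMod 2)) = 0 := by
    rw [Helper31.FX.dF_single', Finset.sum_empty]
  obtain ⟨G, h0, h1, h2⟩ := exists_rec (P := P) (dF (P := Lt P))
    (Finsupp.single (∅ : Finset (Lt P)) (1 : ZMod 2)) he0 (fun σ => J (ap σ)) hc
  refine ⟨G, h0, h2, ?_⟩
  intro σ
  induction σ using Finset.strongInduction with
  | H σ ih =>
    intro F hF
    by_cases hσ : σ = ∅
    · subst hσ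
      rw [h0] at hF
      have e : F = ∅ := by
        by_contra hne
        apply hF
        rw [Finsupp.single_apply, if_neg (Ne.symm hne)]
      subst e
      refine ⟨?_, ?_, ?_⟩
      · rw [Finset.coe_empty]
        exact IsChain.empty
      · intro ρ hρ
        exact absurd hρ (Finset.notMem_empty ρ)
      · intro _ ρ hρ
        exact absurd hρ (Finset.notMem_empty ρ)
    · rw [h1 σ hσ] at hF
      obtain ⟨F', hF', rfl⟩ := Helper31.FX.J_support' _ _ _ hF
      rw [Finsupp.finsetSum_apply] at hF'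
      obtain ⟨x, hx, hxl⟩ := Finset.exists_ne_zero_of_sum_ne_zero hF'
      obtain ⟨i1, i2, i3⟩ := ih (σ.erase x) (Finset.erase_ssubset hx) F' hxl
      have hsub : ∀ ρ ∈ F', (OrderDual.ofDual ρ : Finset P) ⊆ σ.erase s := fun ρ hρ =>
        (i2 ρ hρ).trans (Finset.erase_subset_erase s (Finset.erase_subset x σ))
      by_cases hs : s ∈ σ
      · have e : ap σ = OrderDual.toDual ∅ := by simp only [ap, if_pos hs]
        refine ⟨?_, ?_, fun h => absurd hs h⟩
        · rw [Finset.coe_insert]
          refine i1.insert ?_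
          intro ρ _ _
          right
          rw [e]
          show (∅ : Finset P) ⊆ OrderDual.ofDual ρ
          exact Finset.empty_subset _
        · intro ρ hρ
          rw [Finset.mem_insert] at hρ
          rcases hρ with rfl | hρ
          · rw [e]
            exact Finset.empty_subset _
          · exact hsub ρ hρ
      · have e : ap σ = OrderDual.toDual σ := by simp only [ap, if_neg hs]
        have hes : σ.erase s = σ := Finset.erase_eq_of_notMem hs
        refine ⟨?_, ?_, ?_⟩
        · rw [Finset.coe_insert]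
          refine i1.insert ?_
          intro ρ hρ _
          left
          rw [e]
          show (OrderDual.ofDual ρ : Finset P) ⊆ σ
          rw [← hes]
          exact hsub ρ hρ
        · intro ρ hρ
          rw [Finset.mem_insert] at hρ
          rcases hρ with rfl | hρ
          · rw [e, hes]
            exact Finset.Subset.refl _
          · exact hsub ρ hρ
        · intro _ ρ hρ
          rw [Finset.mem_insert] at hρ
          rcases hρ with rfl | hρ
          · rw [e]
            exact Finset.nonempty_iff_ne_empty.2 hσ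
          · exact i3 (fun h => hs (Finset.mem_of_mem_erase h)) ρ hρ

/-- The composed subdivision. -/
theorem exists_T (P : Type*) [DecidableEq P] (s : P) (r : ℕ) :
    ∃ T : Finset P → LC (Fin r → Lt P), T ∅ = Finsupp.single [] 1 ∧
      (∀ σ, Helper31.FX.D (T σ) = ∑ x ∈ σ, T (σ.erase x)) ∧
      ∀ σ l, T σ l ≠ 0 → ∃ F : Finset (Lt P), IsChain (· ≤ ·) (F : Set (Lt P)) ∧
        (∀ ρ ∈ F, (OrderDual.ofDual ρ : Finset P) ⊆ σ.erase s) ∧
        (s ∉ σ → ∀ ρ ∈ F, (OrderDual.ofDual ρ : Finset P).Nonempty) ∧ Helper31.FX.Good F l := by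
  classical
  obtain ⟨G, hG0, hG1, hG2⟩ := exists_bary P s
  obtain ⟨S, hS0, hS1, hS2⟩ := Helper31.FX.exists_subdiv (Lt P) r
  let L : FC (Lt P) →ₗ[ZMod 2] LC (Fin r → Lt P) := Finsupp.linearCombination (ZMod 2) S
  have hLs : ∀ F, L (Finsupp.single F 1) = S F := by
    intro F
    simp only [L, Finsupp.linearCombination_single, one_smul]
  have hDL : ∀ c, Helper31.FX.D (L c) = L (dF c) := by
    intro c
    refine Helper31.FX.lin_ext (Helper31.FX.D.comp L) (L.comp dF) (fun F => ?_) c
    rw [LinearMap.comp_apply, LinearMap.comp_apply, hLs, hS1, Helper31.FX.dF_single', map_sum]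
    exact Finset.sum_congr rfl (fun x _ => (hLs _).symm)
  refine ⟨fun σ => L (G σ), ?_, ?_, ?_⟩
  · show L (G ∅) = _
    rw [hG0, hLs, hS0]
  · intro σ
    show Helper31.FX.D (L (G σ)) = ∑ x ∈ σ, L (G (σ.erase x))
    rw [hDL, hG1, map_sum]
  · intro σ l hl
    have hl' : L (G σ) l ≠ 0 := hl
    have hex : ∃ F, G σ F ≠ 0 ∧ S F l ≠ 0 := by
      by_contra hcon
      apply hl'
      simp only [L]
      rw [Finsupp.linearCombination_apply, Finsupp.sum, Finsupp.finsetSum_apply]
      refine Finset.sum_eq_zero (fun F hF => ?_)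
      rw [Finsupp.smul_apply]
      by_cases hn : S F l = 0
      · rw [hn, smul_zero]
      · exact absurd ⟨F, Finsupp.mem_support_iff.1 hF, hn⟩ hcon
    obtain ⟨F, hF, hSF⟩ := hex
    obtain ⟨g1, g2, g3⟩ := hG2 σ F hF
    exact ⟨F, g1, g2, g3, hS2 F g1 l hSF⟩

end Pool.Agent.Helper80.FX2
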