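import Pool.Agent.Helper80.FX2.Bounded
import Pool.Agent.Helper31.FX.Main
import Pool.Agent.Helper43.SPH.Main

/-! Project FX2: the theorem for posets, joins only with the greatest element of `E` below
`s ∧ y`. -/

set_option autoImplicit false

universe u

namespace Pool.Agent.Helper80.FX2

open Helper31.FX (HasBoundedRay Tame)

/-- FX2: only condition (ii) for the greatest element `e` of `E` below `s ∧ y`. For `E` the set of
all elements below `s` the hypotheses `hi`, `hj` say that `s` is special. -/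
theorem main_tame2 (P : Type u) [PartialOrder P]
    (hfin : ∃ n : ℕ, ∀ c : Finset P, IsChain (· ≤ ·) (c : Set P) → c.card ≤ n) (s : P)
    (hi : ∀ x : P, (∃ z : P, IsLUB ({s, x} : Set P) z) ∨ (∃ z : P, IsGLB ({s, x} : Set P) z))
    (E : Set P) (hE : ∀ d ∈ E, d < s)
    (hgr : ∀ m : P, m < s → ∃ e, IsGreatest {d | d ∈ E ∧ d ≤ m} e)
    (hj : ∀ x y m e : P, x < y → (¬ ∃ z : P, IsGLB ({s, x} : Set P) z) →
      IsGLB ({s, y} : Set P) m → m < s → IsGreatest {d | d ∈ E ∧ d ≤ m} e →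
      ∃ z : P, IsLUB ({e, x} : Set P) z)
    (ht : Tame E)
    (f : P → P) (hf : Monotone f) : ∃ x : P, f x = x := by
  classical
  rcases ht with h | h
  · by_contra hno
    obtain ⟨r, lam, h1, h2, h3⟩ := exists_label P hfin s hi E hE hgr hj f hf hno
    exact no_labelling_bray r s E hE lam h1 h2 h3 h
  · let ρ : P → P := fun m => if h : ∃ e, IsGreatest {d | d ∈ E ∧ d ≤ m} e then h.choose else m
    have hρ : ∀ m, m < s → IsGreatest {d | d ∈ E ∧ d ≤ m} (ρ m) := by
      intro m hm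
      have h := hgr m hm
      simp only [ρ, dif_pos h]
      exact h.choose_spec
    have hρE : ∀ m, m < s → ρ m = m → m ∈ E := fun m hm h => h ▸ (hρ m hm).1.1
    refine Helper43.SPH.main hfin s ρ hi ?_ ?_ ?_ ?_ f hf
    · intro d hd
      have h1 := hρ d hd
      have hlt : ρ d < s := lt_of_le_of_lt h1.1.2 hd
      exact ⟨h1.1.2, le_antisymm (hρ _ hlt).1.2 ((hρ _ hlt).2 ⟨h1.1.1, le_rfl⟩)⟩
    · intro d e hde he
      have h1 := hρ d (lt_of_le_of_lt hde he)
      exact (hρ e he).2 ⟨h1.1.1, h1.1.2.trans hde⟩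
    · intro a b c hab hbc hcs ha hb hc
      have hbs : b < s := hbc.trans hcs
      exact h a (hρE a (hab.trans hbs) ha) b (hρE b hbs hb) c (hρE c hcs hc) hab hbc
    · intro x y m hxy hx hm hms
      exact hj x y m (ρ m) hxy hx hm hms (hρ m hms)

/-- The order dual of `main_tame2`. -/
theorem main_tame2_dual (P : Type u) [PartialOrder P]
    (hfin : ∃ n : ℕ, ∀ c : Finset P, IsChain (· ≤ ·) (c : Set P) → c.card ≤ n) (s : P)
    (hi : ∀ x : P, (∃ z : P, IsLUB ({s, x} : Set P) z) ∨ (∃ z : P, IsGLB ({s, x} : Set P) z))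
    (E : Set P) (hE : ∀ d ∈ E, s < d)
    (hgr : ∀ m : P, s < m → ∃ e, IsLeast {d | d ∈ E ∧ m ≤ d} e)
    (hj : ∀ x y m e : P, y < x → (¬ ∃ z : P, IsLUB ({s, x} : Set P) z) →
      IsLUB ({s, y} : Set P) m → s < m → IsLeast {d | d ∈ E ∧ m ≤ d} e →
      ∃ z : P, IsGLB ({e, x} : Set P) z)
    (ht : Tame E)
    (f : P → P) (hf : Monotone f) : ∃ x : P, f x = x := by
  obtain ⟨n, hn⟩ := hfin
  have key := main_tame2 Pᵒᵈ ⟨n, fun c hc => hn c (by
    intro a ha b hb hab
    exact (hc ha hb hab).symm)⟩ (OrderDual.toDual s)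
    (fun x => (hi (OrderDual.ofDual x)).symm) (OrderDual.ofDual ⁻¹' E)
    (fun d hd => hE _ hd) (fun m hm => hgr (OrderDual.ofDual m) hm)
    (fun x y m e h1 h2 h3 h4 h5 =>
      hj (OrderDual.ofDual x) (OrderDual.ofDual y) (OrderDual.ofDual m) (OrderDual.ofDual e)
        h1 h2 h3 h4 h5) (Helper31.FX.tame_dual E ht)
    (fun x => OrderDual.toDual (f (OrderDual.ofDual x))) (fun a b hab => hf hab)
  exact key

/-- The case of all elements below `s`: exactly the conditions (i) and (ii) of the problem. -/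
theorem main_special (P : Type u) [PartialOrder P]
    (hfin : ∃ n : ℕ, ∀ c : Finset P, IsChain (· ≤ ·) (c : Set P) → c.card ≤ n) (s : P)
    (h1 : ∀ x : P, (∃ z : P, IsLUB ({s, x} : Set P) z) ∨ (∃ z : P, IsGLB ({s, x} : Set P) z))
    (h2 : ∀ x y : P, x < y → (¬ ∃ z : P, IsGLB ({s, x} : Set P) z) →
      ∀ m : P, IsGLB ({s, y} : Set P) m → ∃ z : P, IsLUB ({m, x} : Set P) z)
    (ht : Tame {d : P | d < s})
    (f : P → P) (hf : Monotone f) : ∃ x : P, f x = x := by
  refine main_tame2 P hfin s h1 {d : P | d < s} (fun d hd => hd) ?_ ?_ ht f hf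
  · intro m hm
    exact ⟨m, ⟨hm, le_rfl⟩, fun d hd => hd.2⟩
  · intro x y m e hxy hx hm hms he
    have e1 : e = m := le_antisymm he.1.2 (he.2 ⟨hms, le_rfl⟩)
    rw [e1]
    exact h2 x y hxy hx m hm

end Pool.Agent.Helper80.FX2
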