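import Pool.Agent.Helper80.FX2.Bary
import Pool.Agent.Helper31.FX.Ray

/-! Project FX2: no labelling on a set without ray. -/

set_option autoImplicit false

namespace Pool.Agent.Helper80.FX2


open Helper31.FX (FC LC dF J N D)

theorem no_labelling_ray {P : Type*} [PartialOrder P] (r : ℕ) (s : P) (E : Set P)
    (hE : ∀ d ∈ E, d < s) (lam : (Fin r → Lt P) → P)
    (h1 : ∀ δ, Helper31.FX.Rel δ δ → (∀ j, δ j ∈ LZ E) → lam δ ∈ E)
    (h2 : ∀ δ δ', Helper31.FX.Rel δ δ' → Helper31.FX.Rel δ δ → Helper31.FX.Rel δ' δ' → (∀ j, δ j ∈ LZ E) →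
      (∀ j, δ' j ∈ LZ E) → lam δ ≤ lam δ' ∨ lam δ' ≤ lam δ)
    (h3 : ∀ δ, Helper31.FX.Rel δ δ → (∀ j, δ j ∈ LZ E) →
      ∀ x, (∀ j, x ∈ (OrderDual.ofDual (δ j) : Finset P)) → lam δ ≠ x)
    (hray : ¬ ∃ v : ℕ → P, Function.Injective v ∧ (∀ k, v k ∈ E) ∧
      ∀ k, v k ≤ v (k + 1) ∨ v (k + 1) ≤ v k) : False := by
  classical
  have hsE : s ∉ E := fun h => lt_irrefl s (hE s h)
  obtain ⟨T, hT0, hT1, hT2⟩ := exists_T P s r
  -- the support of the label chain
  have hsupp : ∀ σ : Finset P, (σ : Set P) ⊆ insert s E → IsChain (· ≤ ·) (σ : Set P) →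
      ∀ ν, N lam (T σ) ν ≠ 0 → ∃ (F : Finset (Lt P)) (l : List (Fin r → Lt P)),
        IsChain (· ≤ ·) (F : Set (Lt P)) ∧ (∀ ρ ∈ F, (OrderDual.ofDual ρ : Finset P) ⊆ σ.erase s) ∧
        (∀ ρ ∈ F, ρ ∈ LZ E) ∧
        (s ∉ σ → ∀ ρ ∈ F, (OrderDual.ofDual ρ : Finset P).Nonempty) ∧ Helper31.FX.Good F l ∧
        ν = (l.map lam).toFinset := by
    intro σ hσ hch ν hν
    obtain ⟨l, hl, e⟩ := Helper31.FX.N_support lam (T σ) ν hν
    obtain ⟨F, f1, f2, f3, f4⟩ := hT2 σ l hl
    refine ⟨F, l, f1, f2, ?_, f3, f4, e⟩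
    intro ρ hρ
    constructor
    · intro x hx
      have hx' := f2 ρ hρ (Finset.mem_coe.1 hx)
      rw [Finset.mem_erase] at hx'
      rcases hσ (Finset.mem_coe.2 hx'.2) with h | h
      · exact absurd h hx'.1
      · exact h
    · exact hch.mono ((Finset.coe_subset.2 (f2 ρ hρ)).trans
        (Finset.coe_subset.2 (Finset.erase_subset s σ)))
  have h3' : ∀ σ : Finset P, (σ : Set P) ⊆ insert s E → IsChain (· ≤ ·) (σ : Set P) →
      ∀ ν, N lam (T σ) ν ≠ 0 → (ν : Set P) ⊆ E ∧ IsChain (· ≤ ·) (ν : Set P) := by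
    intro σ hσ hch ν hν
    obtain ⟨F, l, -, -, f3, -, hg, e⟩ := hsupp σ hσ hch ν hν
    subst e
    constructor
    · intro x hx
      simp only [List.coe_toFinset, Set.mem_ofPred_eq, List.mem_map] at hx
      obtain ⟨v, hv, rfl⟩ := hx
      exact h1 v (hg.2 v hv).1 (fun j => f3 _ ((hg.2 v hv).2 j))
    · intro x hx y hy _
      simp only [List.coe_toFinset, Set.mem_ofPred_eq, List.mem_map] at hx hy
      obtain ⟨v, hv, rfl⟩ := hx
      obtain ⟨w, hw, rfl⟩ := hy
      have hcmp : ∀ l : List (Fin r → Lt P), l.Pairwise Helper31.FX.Rel →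
          (∀ v ∈ l, Helper31.FX.Rel v v ∧ ∀ j, v j ∈ F) →
          ∀ v ∈ l, ∀ w ∈ l, lam v ≤ lam w ∨ lam w ≤ lam v := by
        intro l
        induction l with
        | nil => intro _ _ v hv; exact absurd hv (by simp)
        | cons u t ih =>
          intro hp hm v hv w hw
          rw [List.pairwise_cons] at hp
          rw [List.mem_cons] at hv hw
          rcases hv with rfl | hv
          · rcases hw with rfl | hw
            · exact Or.inl le_rfl
            · have hmv := hm v (by simp)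
              have hmw := hm w (by simp [hw])
              exact h2 v w (hp.1 w hw) hmv.1 hmw.1 (fun j => f3 _ (hmv.2 j))
                (fun j => f3 _ (hmw.2 j))
          · rcases hw with rfl | hw
            · have hmv := hm v (by simp [hv])
              have hmw := hm w (by simp)
              exact (h2 w v (hp.1 v hv) hmw.1 hmv.1 (fun j => f3 _ (hmw.2 j))
                (fun j => f3 _ (hmv.2 j))).symm
            · exact ih hp.2 (fun x hx => hm x (by simp [hx])) v hv w hw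
      exact hcmp l hg.1 hg.2 v hv w hw
  refine Helper31.FX.parity_ray E s hE (fun σ => N lam (T σ)) ?_ ?_ ?_ h3' hray
  · show N lam (T ∅) ∅ = 1
    rw [hT0]
    simp [N, Helper31.FX.nf]
  · intro σ hσ hch hne ν
    show dF (N lam (T σ)) ν = ∑ x ∈ σ, N lam (T (σ.erase x)) ν
    rw [← Helper31.FX.N_D, hT1, map_sum, Finsupp.finsetSum_apply]
  · intro μ hμ hch hne
    show N lam (T μ) μ = 0
    by_contra hcon
    have hμ' : (μ : Set P) ⊆ insert s E := hμ.trans (Set.subset_insert s E)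
    have hsμ : s ∉ μ := fun h => hsE (hμ (Finset.mem_coe.2 h))
    obtain ⟨F, l, f1, f2, f3, f4, hg, e⟩ := hsupp μ hμ' hch μ hcon
    -- the smallest letter
    have hlne : l ≠ [] := by
      rintro rfl
      rw [List.map_nil, List.toFinset_nil] at e
      exact (Finset.nonempty_iff_ne_empty.1 hne) e
    obtain ⟨u, hu⟩ := List.exists_mem_of_ne_nil l hlne
    rcases Nat.eq_zero_or_pos r with hr | hr
    · -- `r = 0` is impossible
      subst hr
      have := h3 u (hg.2 u hu).1 (fun j => j.elim0) (lam u) (fun j => j.elim0)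
      exact this rfl
    have hFne : F.Nonempty := ⟨_, (hg.2 u hu).2 ⟨0, hr⟩⟩
    obtain ⟨ρ, hρ, hρm⟩ := F.exists_maximal hFne
    have hρall : ∀ ρ' ∈ F, (OrderDual.ofDual ρ : Finset P) ⊆ OrderDual.ofDual ρ' := by
      intro ρ' hρ'
      rcases f1.total hρ' hρ with h | h
      · exact h
      · exact hρm hρ' h
    obtain ⟨x, hx⟩ := f4 hsμ ρ hρ
    have hxμ : x ∈ μ := Finset.mem_of_mem_erase (f2 ρ hρ hx)
    have hxl : x ∈ (l.map lam).toFinset := e ▸ hxμ
    simp only [List.mem_toFinset, List.mem_map] at hxl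
    obtain ⟨v, hv, hvx⟩ := hxl
    exact h3 v (hg.2 v hv).1 (fun j => f3 _ ((hg.2 v hv).2 j)) x
      (fun j => hρall _ ((hg.2 v hv).2 j) hx) hvx

end Pool.Agent.Helper80.FX2
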